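import Pool.Agent.helper17.HH.SpecB

/-!
# Row BPG of project HH (MP_07c750_an): pigeonhole
-/

open scoped Pointwise
open MeasureTheory Set

set_option autoImplicit false

namespace Pool.Agent.HH

theorem BPG_proof : BPG_stmt := by
  intro τ W U T hU h
  by_contra hcon
  push Not at hcon
  have h1 : ∑ z ∈ U, ((W.filter fun w => z ∈ T w).card : ℝ) < ∑ _z ∈ U, τ * (W.card : ℝ) := Finset.sum_lt_sum_of_nonempty hU hcon
  have h2 : ∑ z ∈ U, ((W.filter fun w => z ∈ T w).card : ℝ) = ∑ w ∈ W, ((T w).card : ℝ) := by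
    have e1 : ∀ z ∈ U, ((W.filter fun w => z ∈ T w).card : ℝ) = ∑ w ∈ W, if z ∈ T w then (1 : ℝ) else 0 := by
      intro z _
      rw [Finset.sum_boole]
    rw [Finset.sum_congr rfl e1, Finset.sum_comm]
    apply Finset.sum_congr rfl
    intro w hw
    rw [Finset.sum_boole]
    congr 1
    rw [Finset.filter_mem_eq_inter, Finset.inter_eq_right.2 (h w hw).1]
  have h3 : ∑ _w ∈ W, τ * (U.card : ℝ) ≤ ∑ w ∈ W, ((T w).card : ℝ) := Finset.sum_le_sum fun w hw => (h w hw).2
  rw [h2] at h1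
  rw [Finset.sum_const, nsmul_eq_mul] at h1 h3
  have h4 : (U.card : ℝ) * (τ * (W.card : ℝ)) = (W.card : ℝ) * (τ * (U.card : ℝ)) := by ring
  linarith

end Pool.Agent.HH
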